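import Pool.Agent.Helper66.MD.Special
import Pool.Agent.Helper18.NF.Final
import Pool.Agent.Helper18.BV.Assemble

/-!
# Project MD (MP_088bf7_nt): almost primes n with a prime divisor 2kn+1 of 2^n - 1
-/

set_option autoImplicit false

open Finset Filter Topology
open Pool.Agent.Helper18.NF Pool.Agent.Helper18.BV Pool.Agent.Helper54.NF
open scoped Classical

namespace Pool.Agent.Helper66.MD

theorem exists_t (k : ℕ) (hk : Odd k) : ∃ t : ℕ, t.Coprime (4 * k) ∧ (1 + 2 * k * t) % 8 = 7 := by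
  obtain ⟨j, hj⟩ := hk
  rcases Nat.even_or_odd j with ⟨i, hi⟩ | ⟨i, hi⟩
  · refine ⟨4 * k - 1, ?_, ?_⟩
    · have h1 : (4 * k - 1) + 1 = 4 * k := by omega
      have h2 : Nat.Coprime (4 * k - 1) ((4 * k - 1) + 1) := by simp
      rwa [h1] at h2
    · have h2 : 1 + 2 * k * (4 * k - 1) + 2 * k = 1 + 8 * (k * k) := by
        have h3 : 2 * k * (4 * k - 1) + 2 * k = 2 * k * (4 * k - 1 + 1) := by ring
        have h4 : 4 * k - 1 + 1 = 4 * k := by omega
        rw [add_assoc, h3, h4]; ring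
      have h5 : 2 * k = 8 * i + 2 := by omega
      omega
  · refine ⟨1, Nat.coprime_one_left _, ?_⟩
    omega

/-- the arithmetic of the construction -/
theorem dvd_of_special {p k n : ℕ} (hp : p.Prime) (hk : Odd k) (hn : p = 2 * k * n + 1)
    (h8 : p % 8 = 7) (hy : ∃ y : ZMod p, y ^ k = 2) : p ∣ 2 ^ n - 1 := by
  haveI : Fact p.Prime := ⟨hp⟩
  have hp2 : p ≠ 2 := by rintro rfl; omega
  obtain ⟨z, hz⟩ := (ZMod.exists_sq_eq_two_iff hp2).2 (Or.inr h8)
  obtain ⟨y, hy⟩ := hy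
  have h20 : (2 : ZMod p) ≠ 0 := by
    intro h
    have : ((2 : ℕ) : ZMod p) = 0 := by exact_mod_cast h
    rw [ZMod.natCast_eq_zero_iff] at this
    exact hp2 ((Nat.prime_dvd_prime_iff_eq hp Nat.prime_two).1 this)
  have hz0 : z ≠ 0 := by rintro rfl; rw [mul_zero] at hz; exact h20 hz
  have hy0 : y ≠ 0 := by
    rintro rfl
    rw [zero_pow hk.pos.ne'] at hy
    exact h20 hy.symm
  have hp1 : p - 1 = 2 * k * n := by omega
  have h1 : (2 : ZMod p) ^ (k * n) = 1 := by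
    rw [hz, ← pow_two, ← pow_mul, ← ZMod.pow_card_sub_one_eq_one hz0, hp1]
    congr 1; ring
  have h2 : (2 : ZMod p) ^ (2 * n) = 1 := by
    rw [← hy, ← pow_mul, ← ZMod.pow_card_sub_one_eq_one hy0, hp1]
    congr 1; ring
  have h3 : orderOf (2 : ZMod p) ∣ Nat.gcd (k * n) (2 * n) :=
    Nat.dvd_gcd (orderOf_dvd_of_pow_eq_one h1) (orderOf_dvd_of_pow_eq_one h2)
  have h4 : Nat.gcd (k * n) (2 * n) = n := by
    rw [Nat.gcd_mul_right, (Nat.coprime_two_right.2 hk).gcd_eq_one, one_mul]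
  rw [h4] at h3
  have h5 : (2 : ZMod p) ^ n = 1 := orderOf_dvd_iff_pow_eq_one.1 h3
  have h6 : ((2 ^ n - 1 : ℕ) : ZMod p) = 0 := by
    rw [Nat.cast_sub Nat.one_le_two_pow]
    push_cast
    rw [h5, sub_self]
  exact (ZMod.natCast_eq_zero_iff _ _).1 h6

theorem main : ∃ C0 : ℕ, 0 < C0 ∧ ∀ k : ℕ, Odd k → ∃ c : ℝ, 0 < c ∧ ∃ N0 : ℕ, ∀ N : ℕ, N0 ≤ N →
    c / Real.log N ≤ ∑ n ∈ (Finset.Icc 1 N).filter (fun n => N < n ^ 3 ∧ (2 * k * n + 1).Prime ∧
      2 * k * n + 1 ∣ 2 ^ n - 1 ∧ ∀ p : ℕ, p.Prime → p ∣ n → N < p ^ (C0 * k ^ 2)),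
        (1 : ℝ) / n := by
  obtain ⟨c0, hc0, hsp⟩ := special2 fieldSys' bVavF'
    (Pool.Agent.Helper83.NF.massF Pool.Agent.Helper18.NF.cont0 Pool.Agent.Helper46.BV.fourierRep)
    Pool.Agent.Helper28.BV.sieveW
  obtain ⟨g, hg, hgne, -⟩ := exists_wt (τ := 1 / 2) (by norm_num) (by norm_num)
  obtain ⟨M, hM, hgM⟩ := hg.exists_bound
  refine ⟨⌈1 / c0⌉₊ + 1, by omega, ?_⟩
  set C0 : ℕ := ⌈1 / c0⌉₊ + 1 with hC0
  have hC0c : 1 ≤ c0 * C0 := by
    have h1 : 1 / c0 ≤ (C0 : ℝ) := by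
      rw [hC0]
      push_cast
      linarith [Nat.le_ceil (1 / c0)]
    rw [div_le_iff₀ hc0] at h1
    linarith
  intro k hk
  have hkpos : 0 < k := hk.pos
  obtain ⟨t, ht, ht8⟩ := exists_t k hk
  set u : ℕ := 1 + 2 * k * t with hu
  have hcop : u.Coprime (8 * k ^ 2) := by
    have h1 : u.Coprime k := by
      rw [hu, show 1 + 2 * k * t = 1 + k * (2 * t) by ring]
      simp
    have h2 : u.Coprime 2 := by
      rw [Nat.coprime_two_right]
      exact ⟨k * t, by rw [hu]; ring⟩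
    rw [show 8 * k ^ 2 = 2 ^ 3 * k ^ 2 by ring]
    exact Nat.Coprime.mul_right (h2.pow_right 3) (h1.pow_right 2)
  have hmod1 : u ≡ 1 [MOD k] := by
    rw [hu, show 1 + 2 * k * t = 1 + k * (2 * t) by ring]
    simp [Nat.ModEq]
  obtain ⟨c, X0, hc, hX0, hmain⟩ := hsp k hk (8 * k ^ 2) u (by positivity) hcop
    ⟨4 * k ^ 2, by ring⟩ ⟨8 * k, by ring⟩ hmod1 (by
      intro r hr hrv
      rcases (Nat.Prime.dvd_mul hr).1 hrv with h | h
      · left
        have : r ∣ 2 ^ 3 := by norm_num; exact h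
        exact (Nat.prime_dvd_prime_iff_eq hr Nat.prime_two).1 (hr.dvd_of_dvd_pow this)
      · exact Or.inr (hr.dvd_of_dvd_pow h)) g hg hgne
  refine ⟨c / (2 * M), by positivity, ⌈X0⌉₊ + (2 * k + 1) ^ 6, ?_⟩
  intro N hN
  have hNX : X0 ≤ N := (Nat.le_ceil X0).trans (by exact_mod_cast (by omega))
  have hN6 : (2 * k + 1) ^ 6 ≤ N := by omega
  have hN1 : 2 * k + 1 ≤ N := (Nat.le_self_pow (by norm_num) _).trans hN6
  have hN1' : (1:ℝ) < N := by exact_mod_cast (by omega : 1 < N)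
  set x : ℝ := ((2 * k * N + 1 : ℕ) : ℝ) with hx
  have hNx : (N : ℝ) ≤ x := by
    rw [hx]
    exact_mod_cast (by nlinarith : N ≤ 2 * k * N + 1)
  have hx1 : 1 < x := hN1'.trans_le hNx
  have hx0 : 0 < x := by linarith
  have hlogx : Real.log x ≤ 2 * Real.log N := by
    have h1 : Real.log ((N : ℝ) ^ 2) = 2 * Real.log N := by
      rw [Real.log_pow]; norm_num
    rw [← h1]
    apply Real.log_le_log hx0
    rw [hx]
    exact_mod_cast (by nlinarith : 2 * k * N + 1 ≤ N ^ 2)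
  have hlogx0 : 0 < Real.log x := Real.log_pos hx1
  have hlogN : 0 < Real.log N := Real.log_pos hN1'
  set E : Finset ℕ := (range (2 * k * N + 2)).filter (fun p => p.Prime ∧ p ≡ u [MOD 8 * k ^ 2] ∧
        (∃ y : ZMod p, y ^ k = 2) ∧ ∀ r : ℕ, r.Prime → r ∣ p - 1 → r = 2 ∨ r ∣ k ∨
          x ^ (c0 / ((k : ℝ) ^ 2)) < (r : ℝ)) with hE
  have hEmem : ∀ p : ℕ, p ∈ E ↔ (p.Prime ∧ (p : ℝ) ≤ x ∧ p ≡ u [MOD 8 * k ^ 2] ∧
        (∃ y : ZMod p, y ^ k = 2) ∧ ∀ r : ℕ, r.Prime → r ∣ p - 1 → r = 2 ∨ r ∣ k ∨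
          x ^ (c0 / ((k : ℝ) ^ 2)) < (r : ℝ)) := by
    intro p
    rw [hE, Finset.mem_filter, Finset.mem_range]
    have : (p : ℝ) ≤ x ↔ p < 2 * k * N + 2 := by
      rw [hx, Nat.cast_le]; omega
    rw [this]
    tauto
  have h1 := hmain x (hNX.trans hNx) E hEmem
  set S : Finset ℕ := (Finset.Icc 1 N).filter (fun n => N < n ^ 3 ∧ (2 * k * n + 1).Prime ∧
      2 * k * n + 1 ∣ 2 ^ n - 1 ∧ ∀ p : ℕ, p.Prime → p ∣ n → N < p ^ (C0 * k ^ 2)) with hS
  set f : ℕ → ℝ := fun p => Real.log p * wt g x p with hf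
  have hfnn : ∀ p, 0 ≤ f p := fun p => mul_nonneg (Real.log_natCast_nonneg p) (wt_nonneg hg x p)
  have hsub : E.filter (fun p => f p ≠ 0) ⊆ S.image (fun n => 2 * k * n + 1) := by
    intro p hp
    obtain ⟨hpE, hfp⟩ := Finset.mem_filter.1 hp
    obtain ⟨hpp, hpx, hpu, hy, hpr⟩ := (hEmem p).1 hpE
    have hsq : x ^ (1 / 2 : ℝ) < p := by
      by_contra h
      apply hfp
      simp only [hf]
      rw [wt_zero hg hx1 (not_lt.1 h), mul_zero]
    have h2k : 2 * k ∣ p - 1 := by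
      have h2 : p ≡ 1 [MOD 2 * k] := by
        have h3 : p ≡ u [MOD 2 * k] := hpu.of_dvd ⟨4 * k, by ring⟩
        refine h3.trans ?_
        rw [hu]
        simp [Nat.ModEq]
      exact (Nat.modEq_iff_dvd' hpp.one_le).1 h2.symm
    obtain ⟨n, hn⟩ := h2k
    have hpn : p = 2 * k * n + 1 := by have := hpp.one_le; omega
    have hnt : n ≡ t [MOD 4 * k] := by
      have h3 : 2 * k * n + 1 ≡ 2 * k * t + 1 [MOD 2 * k * (4 * k)] := by
        have h4 : 2 * k * (4 * k) = 8 * k ^ 2 := by ring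
        rw [h4, ← hpn, add_comm (2 * k * t) 1]
        exact hpu
      have h5 : 2 * k * n ≡ 2 * k * t [MOD 2 * k * (4 * k)] := Nat.ModEq.add_right_cancel' 1 h3
      exact Nat.ModEq.mul_left_cancel' (by omega) h5
    have hncop : n.Coprime (4 * k) := by
      rw [Nat.Coprime, hnt.gcd_eq]
      exact ht
    have hn0 : 1 ≤ n := by
      rcases Nat.eq_zero_or_pos n with h | h
      · rw [h, mul_zero, zero_add] at hpn
        exact absurd hpn hpp.one_lt.ne'
      · exact h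
    have hnN : n ≤ N := by
      rw [hx] at hpx
      have h3 : p ≤ 2 * k * N + 1 := by exact_mod_cast hpx
      rw [hpn] at h3
      have h4 : 2 * k * n ≤ 2 * k * N := by omega
      exact Nat.le_of_mul_le_mul_left h4 (by omega)
    have hp8 : p % 8 = 7 := by
      have h3 : p ≡ u [MOD 8] := hpu.of_dvd ⟨k ^ 2, rfl⟩
      rw [Nat.ModEq, ht8] at h3
      exact h3
    have hcube : N < n ^ 3 := by
      by_contra h
      push Not at h
      have h3 : x < (p : ℝ) ^ 2 := by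
        calc x = (x ^ (1 / 2 : ℝ)) ^ 2 := by
              rw [← Real.rpow_natCast, ← Real.rpow_mul hx0.le]; norm_num
          _ < (p : ℝ) ^ 2 := pow_lt_pow_left₀ hsq (Real.rpow_nonneg hx0.le _) (by norm_num)
      rw [hx] at h3
      have h4 : 2 * k * N + 1 < p ^ 2 := by exact_mod_cast h3
      have h5 : p ≤ (2 * k + 1) * n := by rw [hpn]; nlinarith
      have h6 : N < ((2 * k + 1) * n) ^ 2 := by
        calc N ≤ 2 * k * N + 1 := by nlinarith
          _ < p ^ 2 := h4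
          _ ≤ _ := Nat.pow_le_pow_left h5 2
      have h7 : N ^ 3 < (((2 * k + 1) * n) ^ 2) ^ 3 := Nat.pow_lt_pow_left h6 (by norm_num)
      have h8 : (((2 * k + 1) * n) ^ 2) ^ 3 = (2 * k + 1) ^ 6 * (n ^ 3) ^ 2 := by ring
      have h9 : (2 * k + 1) ^ 6 * (n ^ 3) ^ 2 ≤ N * N ^ 2 :=
        Nat.mul_le_mul hN6 (Nat.pow_le_pow_left h 2)
      have h10 : N * N ^ 2 = N ^ 3 := by ring
      omega
    rw [Finset.mem_image]
    refine ⟨n, ?_, hpn.symm⟩
    rw [hS, Finset.mem_filter, Finset.mem_Icc]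
    refine ⟨⟨hn0, hnN⟩, hcube, hpn ▸ hpp, hpn ▸ dvd_of_special hpp hk hpn hp8 hy, ?_⟩
    intro r hr hrn
    have hr2 : r ≠ 2 := by
      rintro rfl
      have : 2 ∣ Nat.gcd n (4 * k) := Nat.dvd_gcd hrn ⟨2 * k, by ring⟩
      rw [hncop.gcd_eq_one] at this
      omega
    have hrk : ¬ r ∣ k := by
      intro h
      have : r ∣ Nat.gcd n (4 * k) := Nat.dvd_gcd hrn (h.mul_left 4)
      rw [hncop.gcd_eq_one] at this
      exact hr.one_lt.ne' (Nat.dvd_one.1 this)
    have h3 := hpr r hr (hn ▸ hrn.mul_left (2 * k))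
    have h4 : x ^ (c0 / ((k : ℝ) ^ 2)) < (r : ℝ) := by tauto
    have hk0 : (0:ℝ) < k := by exact_mod_cast hkpos
    have h5 : (N : ℝ) < (r : ℝ) ^ (C0 * k ^ 2) := by
      calc (N : ℝ) ≤ x := hNx
        _ = x ^ (1:ℝ) := (Real.rpow_one x).symm
        _ ≤ x ^ (c0 / ((k : ℝ) ^ 2) * ((C0 * k ^ 2 : ℕ) : ℝ)) := by
            apply Real.rpow_le_rpow_of_exponent_le hx1.le
            push_cast
            have : c0 / (k : ℝ) ^ 2 * (C0 * (k : ℝ) ^ 2) = c0 * C0 := by field_simp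
            rw [this]
            exact hC0c
        _ = (x ^ (c0 / ((k : ℝ) ^ 2))) ^ (C0 * k ^ 2) := by
            rw [Real.rpow_mul hx0.le, Real.rpow_natCast]
        _ < (r : ℝ) ^ (C0 * k ^ 2) := by
            apply pow_lt_pow_left₀ h4 (Real.rpow_nonneg hx0.le _)
            have : 0 < C0 * k ^ 2 := by positivity
            omega
    exact_mod_cast h5
  have h2 : ∑ p ∈ E, f p ≤ M * Real.log x * ∑ n ∈ S, (1 : ℝ) / n := by
    calc ∑ p ∈ E, f p = ∑ p ∈ E.filter (fun p => f p ≠ 0), f p :=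
          (Finset.sum_filter_ne_zero E).symm
      _ ≤ ∑ p ∈ S.image (fun n => 2 * k * n + 1), f p :=
          Finset.sum_le_sum_of_subset_of_nonneg hsub (fun p _ _ => hfnn p)
      _ = ∑ n ∈ S, f (2 * k * n + 1) := by
          apply Finset.sum_image
          intro a _ b _ hab
          simp only at hab
          exact Nat.eq_of_mul_eq_mul_left (by omega : 0 < 2 * k) (by omega)
      _ ≤ ∑ n ∈ S, M * Real.log x * ((1 : ℝ) / n) := by
          apply Finset.sum_le_sum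
          intro n hn
          rw [hS, Finset.mem_filter, Finset.mem_Icc] at hn
          have hn0 : (0:ℝ) < n := by exact_mod_cast hn.1.1
          have hle : 2 * k * n + 1 ≤ 2 * k * N + 1 := by
            have := Nat.mul_le_mul_left (2 * k) hn.1.2
            omega
          have hlog1 : Real.log ((2 * k * n + 1 : ℕ) : ℝ) ≤ Real.log x := by
            apply Real.log_le_log (by positivity)
            rw [hx]
            exact_mod_cast hle
          have hn1 : (n : ℝ) ≤ ((2 * k * n + 1 : ℕ) : ℝ) := by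
            exact_mod_cast (by nlinarith : n ≤ 2 * k * n + 1)
          have hwt : wt g x (2 * k * n + 1) ≤ M * (1 / n) := by
            unfold wt
            rw [div_eq_mul_one_div]
            apply mul_le_mul (hgM _) _ (by positivity) hM.le
            exact one_div_le_one_div_of_le hn0 hn1
          calc f (2 * k * n + 1) ≤ Real.log x * (M * (1 / n)) :=
                mul_le_mul hlog1 hwt (wt_nonneg hg x _) hlogx0.le
            _ = _ := by ring
      _ = _ := by rw [Finset.mul_sum]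
  have hSnn : 0 ≤ ∑ n ∈ S, (1 : ℝ) / n := Finset.sum_nonneg fun n _ => by positivity
  have h3 : c ≤ 2 * M * Real.log N * ∑ n ∈ S, (1 : ℝ) / n := by
    calc c ≤ M * Real.log x * ∑ n ∈ S, (1 : ℝ) / n := h1.trans h2
      _ ≤ M * (2 * Real.log N) * ∑ n ∈ S, (1 : ℝ) / n := by
          apply mul_le_mul_of_nonneg_right _ hSnn
          exact mul_le_mul_of_nonneg_left hlogx hM.le
      _ = _ := by ring
  rw [div_div, div_le_iff₀ (by positivity)]
  linarith [h3]

end Pool.Agent.Helper66.MD
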