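import Pool.Agent.Helper54.NF.SpecialK
import Pool.Agent.Helper80.NF.Indic

/-!
# Project MD (MP_088bf7_nt): special primes modulo which 2 is a k-th power
-/

set_option autoImplicit false

open Finset Filter Topology
open Pool.Agent.Helper18.NF Pool.Agent.Helper18.BV Pool.Agent.Helper54.NF
open scoped ArithmeticFunction.vonMangoldt Classical

namespace Pool.Agent.Helper66.MD

/-- the number of roots of `x ^ k = 2` modulo `p` is `k` or `0` -/
theorem rc_two {p k : ℕ} (hp : p.Prime) (hp2 : p ≠ 2) (hk : 0 < k) (hkp : k ∣ p - 1) :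
    (1 / (k : ℝ)) * (rc k 2 p : ℝ) = if (∃ y : ZMod p, y ^ k = 2) then 1 else 0 := by
  haveI : Fact p.Prime := ⟨hp⟩
  have hr : ∀ r ∈ ({2} : Finset ℕ), ¬ p ∣ r := by
    intro r hr
    rw [Finset.mem_singleton] at hr
    rw [hr]
    intro h
    have := (Nat.prime_dvd_prime_iff_eq hp Nat.prime_two).1 h
    exact hp2 this
  obtain ⟨g, ind, hg, hind⟩ := Pool.Agent.Helper80.NF.Indic.exists_index (R := {2}) p hr
  have h2 := hind 2 (Finset.mem_singleton_self 2)
  have h3 := Pool.Agent.Helper80.NF.Indic.rc_eq p g hg k hkp hk (ind 2) 2 h2.symm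
  have h4 := Pool.Agent.Helper80.NF.Indic.exists_root_iff p g hg k hkp hk (ind 2)
  rw [h2] at h4
  have h5 : ((2 : ℕ) : ZMod p) = 2 := by norm_num
  rw [h5] at h4
  rw [h3]
  have hk' : (k : ℝ) ≠ 0 := by exact_mod_cast hk.ne'
  by_cases h : k ∣ ind 2
  · rw [if_pos h, if_pos (h4.2 h)]
    field_simp
  · rw [if_neg h, if_neg (fun h' => h (h4.1 h'))]
    simp

theorem np_two (k : ℕ) (hk : Odd k) : NP k 2 := by
  intro l hl hlk c hc
  have hl2 : 2 ≤ l := hl.two_le
  rcases Nat.lt_or_ge c 2 with h | h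
  · interval_cases c
    · rw [zero_pow (by omega)] at hc; omega
    · rw [one_pow] at hc; omega
  · have : 2 ^ 2 ≤ c ^ l := (Nat.pow_le_pow_left h 2).trans (Nat.pow_le_pow_right (by omega) hl2)
    omega

/-- Special primes modulo which 2 is a k-th power. -/
theorem special2 (h2 : FieldSys) (h3 : BVavF) (h4 : MassF) (h5 : SieveW) :
    ∃ c0 : ℝ, 0 < c0 ∧ ∀ k : ℕ, Odd k → ∀ v u : ℕ, 0 < v → u.Coprime v → 2 ∣ v → k ∣ v →
    u ≡ 1 [MOD k] → (∀ r : ℕ, r.Prime → r ∣ v → r = 2 ∨ r ∣ k) →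
    ∀ g : ℝ → ℝ, IsWt g → (∃ y, g y ≠ 0) → ∃ c X0 : ℝ, 0 < c ∧ 3 ≤ X0 ∧ ∀ x : ℝ, X0 ≤ x →
      ∀ E : Finset ℕ, (∀ p : ℕ, p ∈ E ↔ (p.Prime ∧ (p : ℝ) ≤ x ∧ p ≡ u [MOD v] ∧
        (∃ y : ZMod p, y ^ k = 2) ∧ ∀ r : ℕ, r.Prime → r ∣ p - 1 → r = 2 ∨ r ∣ k ∨
          x ^ (c0 / ((k : ℝ) ^ 2)) < (r : ℝ))) →
      c ≤ ∑ p ∈ E, Real.log p * wt g x p := by
  obtain ⟨K, cs, hK, hcs, hsieve⟩ := h5
  have hK0 : 0 < K := by linarith
  refine ⟨1 / (80 * K), by positivity, ?_⟩
  intro k hkodd v u hv huv h2v hkv huk hvk g hg hgne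
  have hkpos : 0 < k := hkodd.pos
  obtain ⟨cf, hcf1, hcf2⟩ := exists_class huv
  obtain ⟨L, C, X0, p0, hd⟩ := exists_dat h2 h3 h4 hg hcf1 hkodd (by norm_num : 1 ≤ 2)
    (np_two k hkodd)
  obtain ⟨CN, hCN, hnp⟩ := nonprime_pow hg
  have hI0 := IsWt_integral_pos hg hgne
  set I0 : ℝ := ∫ v, g v with hI0def
  have hk1 : (1:ℝ) ≤ k := by exact_mod_cast hkpos
  have hk0 : (0:ℝ) < k := by linarith
  set α : ℝ := 1 / (80 * K) / (k : ℝ) ^ 2 with hα
  have hα0 : 0 < α := by rw [hα]; positivity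
  set β : ℝ := 1 / (80 * (k : ℝ) ^ 2) with hβ
  have hβ0 : 0 < β := by rw [hβ]; positivity
  have hαK : α * K = β := by
    rw [hα, hβ]
    field_simp
  have hβ80 : β ≤ 1 / 80 := by
    rw [hβ]
    apply div_le_div_of_nonneg_left (by norm_num) (by norm_num)
    nlinarith
  have hφ : 0 < v.totient := Nat.totient_pos.2 hv
  have hφ' : (0:ℝ) < v.totient := by exact_mod_cast hφ
  set cS : ℝ := 1 / (k : ℝ) with hcS
  have hcS0 : 0 < cS := by rw [hcS]; positivity
  have hC0 := hd.C_pos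
  set A1 : ℝ := cS * C with hA1
  set A2 : ℝ := cS * ((k : ℝ) * CN) with hA2
  have hA1nn : 0 ≤ A1 := by rw [hA1]; positivity
  have hA2nn : 0 ≤ A2 := by rw [hA2]; positivity
  set CR : ℝ := A1 + A2 with hCR
  have hCRnn : 0 ≤ CR := by rw [hCR]; linarith
  set c1 : ℝ := cs * (1 / (v.totient : ℝ) * (cS * I0 / 2)) / α with hc1
  have hc1pos : 0 < c1 := by rw [hc1]; positivity
  -- large `x`
  have ev1 : ∀ᶠ x : ℝ in atTop, (2:ℝ) ≤ x ^ α := (tendsto_rpow_atTop hα0).eventually_ge_atTop _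
  have ev2 : ∀ᶠ x : ℝ in atTop, (v:ℝ) ≤ x ^ β := (tendsto_rpow_atTop hβ0).eventually_ge_atTop _
  have ev3 : ∀ᶠ x : ℝ in atTop, Real.log x ^ (3:ℝ) ≤ x ^ (9 / 80 : ℝ) := by
    have h := (isLittleO_log_rpow_rpow_atTop (3:ℝ) (by norm_num : (0:ℝ) < 9 / 80)).bound one_pos
    filter_upwards [h, eventually_ge_atTop (3:ℝ)] with x hx hx3
    have hlog : 0 ≤ Real.log x := Real.log_nonneg (by linarith)
    rw [one_mul, Real.norm_of_nonneg (Real.rpow_nonneg hlog _),
      Real.norm_of_nonneg (Real.rpow_nonneg (by linarith) _)] at hx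
    exact hx
  have ev4 : ∀ᶠ x : ℝ in atTop, 2 * A1 / (cS * I0) ≤ Real.log x :=
    Real.tendsto_log_atTop.eventually_ge_atTop _
  have ev5 : ∀ᶠ x : ℝ in atTop, 4 * (K * α * CR) / c1 + 1 ≤ Real.log x :=
    Real.tendsto_log_atTop.eventually_ge_atTop _
  have ev6 : ∀ᶠ x : ℝ in atTop, X0 ≤ x := eventually_ge_atTop _
  have ev7 : ∀ᶠ x : ℝ in atTop, (p0 : ℝ) ≤ x ^ (1 / 2 : ℝ) :=
      (tendsto_rpow_atTop (by norm_num)).eventually_ge_atTop _
  obtain ⟨X4, hX4⟩ := (ev1.and (ev2.and (ev3.and (ev4.and (ev5.and (ev6.and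
    ev7)))))).exists_forall_of_atTop
  refine ⟨c1 / 2, max 3 X4, by linarith, le_max_left _ _, ?_⟩
  intro x hx E hE
  have hx3 : (3:ℝ) ≤ x := (le_max_left _ _).trans hx
  obtain ⟨hw2, hvx, hlog3, hlogA, hlogx, hX0, hp0⟩ := hX4 x ((le_max_right _ _).trans hx)
  have hxpos : 0 < x := by linarith
  have hx1' : 1 < x := by linarith
  have hlog : 0 < Real.log x := Real.log_pos hx1'
  have hlog1 : 1 ≤ Real.log x := by
    have : 0 ≤ 4 * (K * α * CR) / c1 := by positivity
    linarith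
  have hlog3pos : 0 < Real.log x ^ (3:ℝ) := Real.rpow_pos_of_pos hlog _
  set w : ℝ := x ^ α with hw
  have hwpos : 0 < w := by linarith
  have hwK : w ^ K = x ^ β := by
    rw [hw, ← Real.rpow_mul hxpos.le, hαK]
  have hlogw : Real.log w = α * Real.log x := Real.log_rpow hxpos _
  set P : ℕ → Prop := fun q => q.Prime ∧ 3 ≤ q ∧ ¬ q ∣ v with hP
  set Ω : Finset ℕ := (Icc 1 ⌊x⌋₊).filter (fun n => n.Prime ∧ n ≡ u [MOD v]) with hΩ
  set W : ℕ → ℝ := fun p => (if (∃ y : ZMod p, y ^ k = 2) then 1 else 0) *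
    (Real.log p * wt g x p) with hW
  have hWnn : ∀ p : ℕ, p.Prime → 0 ≤ W p := by
    intro p hp
    simp only [hW]
    apply mul_nonneg
    · split_ifs <;> norm_num
    · exact mul_nonneg (Real.log_nonneg (by exact_mod_cast hp.one_le)) (wt_nonneg hg x p)
  have hWeq : ∀ p ∈ Ω, W p = cS * (L p * wt g x p) := by
    intro p hp
    obtain ⟨hp1, hpp, hpu⟩ := Finset.mem_filter.1 hp
    by_cases hpx : (p:ℝ) ≤ x ^ (1 / 2 : ℝ)
    · have h0 := wt_zero hg hx1' hpx
      simp only [hW]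
      rw [h0]
      simp
    · push Not at hpx
      have hL : L p = rc k 2 p * Real.log p :=
        hd.prime p hpp (by exact_mod_cast (hp0.trans hpx.le))
      have hpv : ¬ p ∣ v := by
        intro hpv
        have h5 : p ∣ u := by
          have h6 : u ≡ p [MOD p] := (hpu.of_dvd hpv).symm
          have h7 : u ≡ 0 [MOD p] := h6.trans (by simp [Nat.ModEq])
          exact (Nat.modEq_zero_iff_dvd).1 h7
        have h8 : p ∣ Nat.gcd u v := Nat.dvd_gcd h5 hpv
        rw [huv.gcd_eq_one] at h8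
        exact hpp.one_lt.ne' (Nat.dvd_one.1 h8)
      have hp2 : p ≠ 2 := fun h => hpv (h ▸ h2v)
      have hkp : k ∣ p - 1 := by
        have h9 : p ≡ 1 [MOD k] := (hpu.of_dvd hkv).trans huk
        exact (Nat.modEq_iff_dvd' hpp.one_le).1 h9.symm
      have h := rc_two hpp hp2 hkpos hkp
      simp only [hW]
      rw [← h, hL, hcS]
      ring
  -- total masses
  set M : ℝ := ∑ n ∈ Icc 1 ⌊x⌋₊, L n * wt g x n with hM
  have hMsum : cS * I0 / 2 * Real.log x ≤ cS * M := by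
    have h5 : cS * (Real.log x * I0) - A1 ≤ cS * M := by
      have h6 := hd.mass x hX0
      have h7 : |cS * (M - Real.log x * I0)| ≤ cS * C := by
        rw [abs_mul, abs_of_pos hcS0]
        exact mul_le_mul_of_nonneg_left h6 hcS0.le
      have h8 := (abs_le.1 h7).1
      rw [hA1]
      linarith
    have h7 : A1 ≤ cS * I0 / 2 * Real.log x := by
      rw [div_le_iff₀ (by positivity)] at hlogA
      linarith
    calc cS * I0 / 2 * Real.log x ≤ cS * (Real.log x * I0) - A1 := by linarith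
      _ ≤ _ := h5
  have hMsum0 : 0 ≤ cS * M := le_trans (by positivity) hMsum
  set Er : ℕ → ℝ := fun m => |∑ n ∈ (Icc 1 ⌊x⌋₊).filter (fun n => n ≡ cf m [MOD m]),
    L n * wt g x n - (1 / (m.totient : ℝ)) * M| with hEr
  have hErnn : ∀ m, 0 ≤ Er m := fun m => abs_nonneg _
  set r : ℕ → ℝ := fun d => cS *
    ((if v * d ≤ ⌊x ^ (1 / (40 * k ^ 2) : ℝ)⌋₊ then Er (v * d) else 0) +
      (k : ℝ) * (CN * x ^ (-(1 / 8) : ℝ))) with hr
  have hR : ∑ d ∈ Icc 1 ⌊w ^ K⌋₊, r d ≤ CR / Real.log x ^ (3:ℝ) := by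
    simp only [hr]
    have h5 : ∑ d ∈ Icc 1 ⌊w ^ K⌋₊, cS *
        ((if v * d ≤ ⌊x ^ (1 / (40 * k ^ 2) : ℝ)⌋₊ then Er (v * d) else 0) +
          (k : ℝ) * (CN * x ^ (-(1 / 8) : ℝ))) ≤
        (cS * C + cS * ((k : ℝ) * CN)) / Real.log x ^ (3:ℝ) := by
      rw [← Finset.mul_sum, Finset.sum_add_distrib, Finset.sum_const, Nat.card_Icc,
        Nat.add_sub_cancel, nsmul_eq_mul]
      have h6 : ∑ d ∈ Icc 1 ⌊w ^ K⌋₊,
          (if v * d ≤ ⌊x ^ (1 / (40 * k ^ 2) : ℝ)⌋₊ then Er (v * d) else 0) ≤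
          C / Real.log x ^ (3:ℝ) := by
        refine le_trans ?_ (hd.bv x hX0)
        rw [← Finset.sum_filter]
        have h7 : ∑ d ∈ (Icc 1 ⌊w ^ K⌋₊).filter
            (fun d => v * d ≤ ⌊x ^ (1 / (40 * k ^ 2) : ℝ)⌋₊), Er (v * d) =
            ∑ m ∈ ((Icc 1 ⌊w ^ K⌋₊).filter
              (fun d => v * d ≤ ⌊x ^ (1 / (40 * k ^ 2) : ℝ)⌋₊)).image
                (fun d => v * d), Er m := by
          rw [Finset.sum_image]
          intro a _ b _ hab
          exact Nat.eq_of_mul_eq_mul_left hv hab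
        rw [h7]
        apply Finset.sum_le_sum_of_subset_of_nonneg
        · intro m hm
          obtain ⟨d, hd, rfl⟩ := Finset.mem_image.1 hm
          obtain ⟨hd1, hd2⟩ := Finset.mem_filter.1 hd
          rw [Finset.mem_Icc] at hd1 ⊢
          exact ⟨Nat.mul_pos hv hd1.1, hd2⟩
        · intro m _ _
          exact hErnn m
      have h8 : (⌊w ^ K⌋₊ : ℝ) * ((k : ℝ) * (CN * x ^ (-(1 / 8) : ℝ))) ≤
          (k : ℝ) * CN / Real.log x ^ (3:ℝ) := by
        have h9 : (⌊w ^ K⌋₊ : ℝ) ≤ x ^ (1 / 80 : ℝ) := by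
          rw [hwK]
          refine (Nat.floor_le (Real.rpow_nonneg hxpos.le _)).trans ?_
          exact Real.rpow_le_rpow_of_exponent_le hx1'.le hβ80
        have h10 : x ^ (1 / 80 : ℝ) * x ^ (-(1 / 8) : ℝ) ≤ 1 / Real.log x ^ (3:ℝ) := by
          rw [← Real.rpow_add hxpos, show (1 / 80 + -(1 / 8) : ℝ) = -(9 / 80) by norm_num,
            Real.rpow_neg hxpos.le, ← one_div]
          exact one_div_le_one_div_of_le hlog3pos hlog3
        calc (⌊w ^ K⌋₊ : ℝ) * ((k : ℝ) * (CN * x ^ (-(1 / 8) : ℝ)))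
            ≤ x ^ (1 / 80 : ℝ) * ((k : ℝ) * (CN * x ^ (-(1 / 8) : ℝ))) :=
              mul_le_mul_of_nonneg_right h9 (by positivity)
          _ = (k : ℝ) * CN * (x ^ (1 / 80 : ℝ) * x ^ (-(1 / 8) : ℝ)) := by ring
          _ ≤ (k : ℝ) * CN * (1 / Real.log x ^ (3:ℝ)) :=
              mul_le_mul_of_nonneg_left h10 (by positivity)
          _ = _ := by ring
      calc _ ≤ cS * (C / Real.log x ^ (3:ℝ) + (k : ℝ) * CN / Real.log x ^ (3:ℝ)) :=
            mul_le_mul_of_nonneg_left (add_le_add h6 h8) hcS0.le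
        _ = _ := by ring
    exact h5
  have hrnn : ∀ d, 0 ≤ r d := by
    intro d
    simp only [hr]
    apply mul_nonneg hcS0.le
    apply add_nonneg
    · split_ifs
      · exact hErnn _
      · exact le_rfl
    · positivity
  have hsv := hsieve ℕ P (fun q hq => ⟨hq.1, hq.2.1⟩) w hw2 Ω W
    (fun q n => n ≡ 1 [MOD q]) ((1 / (v.totient : ℝ)) * (cS * M))
    (CR / Real.log x ^ (3:ℝ)) r
    (fun n hn => hWnn n (Finset.mem_filter.1 hn).2.1)
    (by positivity) hrnn ?_ hR (Ω.filter (fun n => ∀ q : ℕ, P q → (q : ℝ) ≤ w → ¬ n ≡ 1 [MOD q]))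
    (fun n => Finset.mem_filter)
  swap
  · -- the error terms
    intro I hI hIw E2 hE2
    have hIp : ∀ q ∈ I, q.Prime := fun q hq => (hI q hq).1.1
    set d : ℕ := ∏ q ∈ I, q with hdd
    have hdpos : 0 < d := Finset.prod_pos fun q hq => (hIp q hq).pos
    have hvd : v.Coprime d := by
      apply Nat.Coprime.prod_right
      intro q hq
      rw [Nat.coprime_comm, Nat.Prime.coprime_iff_not_dvd (hIp q hq)]
      exact (hI q hq).1.2.2
    have hvdle : v * d ≤ ⌊x ^ (1 / (40 * k ^ 2) : ℝ)⌋₊ := by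
      rw [Nat.le_floor_iff (Real.rpow_nonneg hxpos.le _)]
      push_cast
      calc (v : ℝ) * d ≤ x ^ β * x ^ β :=
            mul_le_mul hvx (hIw.trans hwK.le) (Nat.cast_nonneg _) (Real.rpow_nonneg hxpos.le _)
        _ = x ^ (β + β) := by rw [← Real.rpow_add hxpos]
        _ = x ^ (1 / (40 * (k : ℝ) ^ 2) : ℝ) := by
            congr 1
            rw [hβ]; field_simp; norm_num
    set F : Finset ℕ := (Icc 1 ⌊x⌋₊).filter (fun n => n ≡ cf (v * d) [MOD v * d]) with hF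
    have hE2' : E2 = F.filter (fun n => n.Prime) := by
      ext n
      rw [hE2, hF, Finset.mem_filter, Finset.mem_filter, Finset.mem_filter, hcf2 d hvd n, hdd,
        modEq_one_prod I hIp]
      tauto
    have hE2Ω : ∀ n ∈ E2, n ∈ Ω := fun n hn => ((hE2 n).1 hn).1
    have hsum1 : ∑ n ∈ E2, W n = cS * ∑ n ∈ E2, L n * wt g x n := by
      rw [Finset.sum_congr rfl (fun n hn => hWeq n (hE2Ω n hn)), Finset.mul_sum]
    set N : ℝ := ∑ n ∈ F.filter (fun n => ¬ n.Prime), L n * wt g x n with hN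
    have hN1 : ∑ n ∈ E2, L n * wt g x n = ∑ n ∈ F, L n * wt g x n - N := by
      rw [hE2', hN, ← Finset.sum_filter_add_sum_filter_not F (fun n => n.Prime)]
      ring
    have hN2 : |N| ≤ (k : ℝ) * (CN * x ^ (-(1 / 8) : ℝ)) := by
      have h5 : 0 ≤ N := Finset.sum_nonneg fun n _ =>
        mul_nonneg (hd.nonneg n) (wt_nonneg hg x n)
      rw [abs_of_nonneg h5]
      calc N ≤ ∑ n ∈ F.filter (fun n => ¬ n.Prime), (k : ℝ) * (Λ n * wt g x n) := by
            apply Finset.sum_le_sum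
            intro n _
            rw [← mul_assoc]
            exact mul_le_mul_of_nonneg_right (hd.le n) (wt_nonneg hg x n)
        _ = (k : ℝ) * ∑ n ∈ F.filter (fun n => ¬ n.Prime), Λ n * wt g x n := by
            rw [Finset.mul_sum]
        _ ≤ _ := mul_le_mul_of_nonneg_left
            (hnp x hx1' _ (fun n hn => (Finset.mem_filter.1 hn).2)) (Nat.cast_nonneg _)
    have hφvd : (1 / (v.totient : ℝ)) * (cS * M) * ∏ q ∈ I, (1 / ((q : ℝ) - 1)) =
        cS * ((1 / ((v * d).totient : ℝ)) * M) := by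
      have h5 : (1 / (v.totient : ℝ)) * ∏ q ∈ I, (1 / ((q : ℝ) - 1)) =
          1 / ((v * d).totient : ℝ) := by
        rw [Nat.totient_mul hvd, hdd, totient_prod_primes I hIp]
        push_cast
        have h6 : ∏ q ∈ I, (1 / ((q : ℝ) - 1)) = 1 / ∏ q ∈ I, ((q - 1 : ℕ) : ℝ) := by
          rw [Finset.prod_div_distrib, Finset.prod_const_one]
          congr 1
          apply Finset.prod_congr rfl
          intro q hq
          rw [Nat.cast_sub (hIp q hq).one_le, Nat.cast_one]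
        rw [h6]
        field_simp
      calc (1 / (v.totient : ℝ)) * (cS * M) * ∏ q ∈ I, (1 / ((q : ℝ) - 1))
          = ((1 / (v.totient : ℝ)) * ∏ q ∈ I, (1 / ((q : ℝ) - 1))) * (cS * M) := by ring
        _ = (1 / ((v * d).totient : ℝ)) * (cS * M) := by rw [h5]
        _ = _ := by ring
    rw [hφvd, hsum1]
    simp only [hr]
    rw [if_pos hvdle, ← mul_sub, abs_mul, abs_of_pos hcS0]
    apply mul_le_mul_of_nonneg_left _ hcS0.le
    rw [hN1]
    calc |∑ n ∈ F, L n * wt g x n - N - 1 / ((v * d).totient : ℝ) * M|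
        = |(∑ n ∈ F, L n * wt g x n - 1 / ((v * d).totient : ℝ) * M) - N| := by
          congr 1; ring
      _ ≤ |∑ n ∈ F, L n * wt g x n - 1 / ((v * d).totient : ℝ) * M| + |N| := abs_sub _ _
      _ ≤ _ := add_le_add le_rfl hN2
  -- main term
  set E2 : Finset ℕ := Ω.filter (fun n => ∀ q : ℕ, P q → (q : ℝ) ≤ w → ¬ n ≡ 1 [MOD q]) with hE2
  have hmain : c1 - K * α * CR / Real.log x ≤ ∑ n ∈ E2, W n := by
    refine le_trans ?_ hsv
    have h7 : c1 ≤ cs * (1 / (v.totient : ℝ) * (cS * M)) / Real.log w := by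
      rw [hlogw, le_div_iff₀ (by positivity), hc1]
      have h9 : cs * (1 / (v.totient : ℝ) * (cS * I0 / 2)) / α * (α * Real.log x) =
          cs * (1 / (v.totient : ℝ) * (cS * I0 / 2 * Real.log x)) := by
        field_simp
      rw [h9]
      exact mul_le_mul_of_nonneg_left (mul_le_mul_of_nonneg_left hMsum (by positivity)) hcs.le
    have h10 : K * Real.log w * (CR / Real.log x ^ (3:ℝ)) ≤ K * α * CR / Real.log x := by
      rw [hlogw]
      have h11 : Real.log x ^ (3:ℝ) = Real.log x * (Real.log x * Real.log x) := by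
        have : (3:ℝ) = ((3:ℕ):ℝ) := by norm_num
        rw [this, Real.rpow_natCast]; ring
      rw [h11]
      have h12 : K * (α * Real.log x) * (CR / (Real.log x * (Real.log x * Real.log x))) =
          K * α * CR / (Real.log x * Real.log x) := by
        field_simp
      rw [h12]
      exact div_le_div_of_nonneg_left (by positivity) hlog
        (le_mul_of_one_le_right hlog.le hlog1)
    linarith
  have herr : K * α * CR / Real.log x ≤ c1 / 4 := by
    rw [div_le_iff₀ hlog]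
    have h13 : 4 * (K * α * CR) / c1 ≤ Real.log x := by linarith
    rw [div_le_iff₀ hc1pos] at h13
    linarith
  -- comparison with the primes
  have hcomp : ∑ n ∈ E2, W n ≤ ∑ p ∈ E, Real.log p * wt g x p := by
    have h14 : ∑ n ∈ E2, W n = ∑ n ∈ E2.filter (fun n => ∃ y : ZMod n, y ^ k = 2),
        Real.log n * wt g x n := by
      rw [Finset.sum_filter (s := E2)]
      apply Finset.sum_congr rfl
      intro n _
      simp only [hW]
      split_ifs
      · rw [one_mul]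
      · rw [zero_mul]
    rw [h14]
    apply Finset.sum_le_sum_of_subset_of_nonneg
    · intro p hp
      obtain ⟨hpE2, hpat⟩ := Finset.mem_filter.1 hp
      obtain ⟨hpΩ, hps⟩ := Finset.mem_filter.1 hpE2
      obtain ⟨hpI, hpp, hpu⟩ := Finset.mem_filter.1 hpΩ
      rw [hE]
      refine ⟨hpp, ?_, hpu, hpat, ?_⟩
      · rw [← Nat.le_floor_iff hxpos.le]
        exact (Finset.mem_Icc.1 hpI).2
      · intro r hrp hrd
        by_cases hrv : r ∣ v
        · rcases hvk r hrp hrv with h | h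
          · exact Or.inl h
          · exact Or.inr (Or.inl h)
        by_cases hr2 : r = 2
        · exact Or.inl hr2
        right
        right
        by_contra hle
        have hpr : p ≡ 1 [MOD r] :=
          ((Nat.modEq_iff_dvd' hpp.one_le).2 hrd).symm
        have hr3 : 3 ≤ r := by
          have := hrp.two_le
          omega
        exact hps r ⟨hrp, hr3, hrv⟩ (not_lt.1 hle) hpr
    · intro p hp _
      have hpp := ((hE p).1 hp).1
      exact mul_nonneg (Real.log_nonneg (by exact_mod_cast hpp.one_le)) (wt_nonneg hg x p)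
  linarith

end Pool.Agent.Helper66.MD
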